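import Pool.Agent.H77.Nu.BlkT.Step

/-!
The upper bound `ν(d) ≤ (12 d + 8) / 5` for McMullen's problem (MP_1e71f9_co).
-/

set_option autoImplicit false

namespace Pool.Agent.H77.Nu.BlkT

open Finset Pool.Agent.H67.Nu Pool.Agent.H77.Nu

/-- Three columns of a tail for one row. -/
theorem odd_step {N : ℕ} {R C : ℤ} (hC : 1 ≤ C) (hR : 1 ≤ R) (h : ExL N R (XS C)) :
    ExL (N + 3) (R + 1) (XS C) := by
  have e : C = (C - 1) + 1 := by ring
  rw [e] at h
  have h1 := (h.X0 (by omega)).toX hR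
  rwa [← e] at h1

theorem odd_steps {N : ℕ} {R C : ℤ} (hC : 1 ≤ C) (hR : 1 ≤ R) (h : ExL N R (XS C)) (w : ℕ) :
    ExL (N + 3 * w) (R + w) (XS C) := by
  induction w with
  | zero => simpa using h
  | succ w ih =>
    have := odd_step hC (by omega) ih
    have e1 : N + 3 * (w + 1) = N + 3 * w + 3 := by ring
    have e2 : R + ((w + 1 : ℕ) : ℤ) = R + w + 1 := by push_cast; ring
    rw [e1, e2]; exact this

/-- A prefix, `w` odd steps, `t` blocks and a tail. -/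
theorem bad_all (w t u r : ℕ) (hr : r ≤ 4 + w + 5 * t + 2 * u) :
    Bad (9 + 3 * w + 12 * t + 5 * u) r := by
  have h0 := odd_steps (by norm_num) (by norm_num) (exL_X 1 0) w
  have h1 := h0.cycles block_ok (by norm_num) 0 (by norm_num) (by omega) t
  have e : (1 : ℤ) = 0 + 1 := by ring
  rw [e] at h1
  have h2 := (((h1.X0 (by norm_num)).periods (by push_cast; omega) u).toEx).bad r
    (by push_cast; omega)
  have e1 : 8 + 5 * 0 + 3 * w + (9 + 5 * 0 + 3) * t + 5 * u + 1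
      = 9 + 3 * w + 12 * t + 5 * u := by ring
  rwa [e1] at h2

theorem points_of_bad {N d : ℕ} (h : Bad N (d + 1)) (n : ℕ) (hn : N ≤ n) :
    ∃ x : Fin n → Fin d → ℝ, GenPos x ∧ ¬ Mappable x := by
  obtain ⟨x, hx⟩ := h
  obtain ⟨w, hb, hg, h0⟩ := exists_generic (SBad.of_dead hx n hn)
  exact ⟨_, not_mappable w hb hg h0⟩

/-- `ν(d) < (12 d + 13) / 5` for all `d ≥ 3`. -/
theorem main (d n : ℕ) (hd : 3 ≤ d) (hn : (12 * d + 13) / 5 ≤ n) :
    ∃ x : Fin n → Fin d → ℝ, GenPos x ∧ ¬ Mappable x := by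
  obtain ⟨t, s, h1, h2⟩ : ∃ t s, d = 3 + 5 * t + s ∧ s < 5 :=
    ⟨(d - 3) / 5, (d - 3) % 5, by omega, by omega⟩
  exact points_of_bad (bad_all (s % 2) t (s / 2) (d + 1) (by omega)) n (by omega)

end Pool.Agent.H77.Nu.BlkT
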