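import Pool.Agent.H77.Nu.BlkT.Main
import Pool.Agent.H77.Nu.TwoEnds
import Pool.Agent.H67.Nu.Prefix

/-!
The upper bound `ν(d) ≤ (12 d + 1) / 5` for McMullen's problem (MP_1e71f9_co).
-/

set_option autoImplicit false

namespace Pool.Agent.H77.Nu.BlkT

open Finset Pool.Agent.H67.Nu Pool.Agent.H77.Nu

theorem mid (B : ℕ) : ExL (12 + 12 * B) (6 + 5 * B) (XS 1) := by
  have := start13.cycles block_ok (by norm_num) 0 (by norm_num) (by norm_num) B
  have e1 : 12 + (9 + 5 * 0 + 3) * B = 12 + 12 * B := by ring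
  have e2 : (6 : ℤ) + (4 + 2 * ((0 : ℕ) : ℤ) + 1) * B = 6 + 5 * B := by push_cast; ring
  rwa [e1, e2] at this

theorem ends (B i : ℕ) (hi : i < 5) :
    ExL (12 + 12 * B + (12 * i + 6) / 5) (6 + 5 * B + i) E1 := by
  have h := mid B
  have hR : (1 : ℤ) ≤ 6 + 5 * B := by omega
  interval_cases i
  · simpa using h.X0'.end0 hR
  · have := (h.up hR).end0 (by omega)
    simpa [add_assoc] using this
  · have h1 : ExL (12 + 12 * B + 5) (6 + 5 * B + 2) (S0 0) :=
      (h.X0'.period hR).mono fun P Q T hX => S0_mono (by norm_num) hX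
    have := h1.end0 (by omega)
    simpa [add_assoc] using this
  · have h1 := (h.up hR).toX (by omega)
    have e : (0 : ℤ) + 1 = 1 := by norm_num
    rw [e] at h1
    have := (h1.up (by omega)).end0 (by omega)
    simpa [add_assoc] using this
  · have h1 : ExL (12 + 12 * B + 9) (6 + 5 * B + 4) (S0 0) := block_ok _ _ hR h
    have := h1.end0 (by omega)
    simpa [add_assoc] using this

/-- Both ends and `B` or `B + 1` blocks. -/
theorem bad_two (B i : ℕ) (hi : i < 5) : Bad (24 + 12 * B + (12 * i + 6) / 5) (11 + 5 * B + i) := by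
  have := (ends B i hi).glue (r := 11 + 5 * B + i) (by push_cast; ring)
  have e : 12 + 12 * B + (12 * i + 6) / 5 + 12 = 24 + 12 * B + (12 * i + 6) / 5 := by ring
  rwa [e] at this

/-- The check for the first ten vectors. -/
def chkT (k : ℕ) : Bool :=
  decide (6 ≤ (pxState k).1) || anyB 10 fun i => decide (6 ≤ (pxState (k ^^^ 2 ^ i)).1)

theorem chkT_true : allB 1024 chkT = true := by decide +kernel

/-- Ten points in `ℝ^4`. -/
theorem bad_ten : Bad 10 5 := by
  refine ⟨fun j i => (px j i : ℝ), fun s => ?_⟩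
  obtain ⟨h1, -⟩ := Pool.Agent.H67.Nu.code_spec s
  have h := allB_spec chkT_true _ h1
  unfold chkT at h
  rw [Bool.or_eq_true, decide_eq_true_eq] at h
  rcases h with h | h
  · exact ⟨s, Or.inl rfl, (prefix_st s).dead h⟩
  · obtain ⟨i, hi, h'⟩ := anyB_spec h
    rw [decide_eq_true_eq] at h'
    refine ⟨_, Or.inr ⟨i, hi, rfl⟩, (prefix_st (flip s i)).dead ?_⟩
    show 5 < (pxState (Pool.Agent.H67.Nu.code (flip s i))).1
    rw [Pool.Agent.H67.Nu.code_flip s hi]
    exact h'

/-- `ν(d) ≤ (12 d + 1) / 5` for all `d ≥ 2`. -/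
theorem main2 (d n : ℕ) (hd : 2 ≤ d) (hn : (12 * d + 6) / 5 ≤ n) :
    ∃ x : Fin n → Fin d → ℝ, GenPos x ∧ ¬ Mappable x := by
  have hB : ColumnLemma := fun x n N e => exists_column x n N e
  have hcase : d = 2 ∨ d = 3 ∨ d = 4 ∨ d = 5 ∨ d = 6 ∨ d = 7 ∨ d = 8 ∨ d = 9 ∨ 10 ≤ d := by omega
  rcases hcase with rfl | rfl | rfl | rfl | rfl | rfl | rfl | rfl | h10
  · exact points_of_bad (bad_odd 0) n (by omega)
  · exact points_of_bad (bad_even 1) n (by omega)
  · exact points_of_bad bad_ten n (by omega)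
  · exact points_of_bad (bad_even 2) n (by omega)
  · exact points_of_bad (exists_bad hB prefix_st p0_le p0_flip p0_pos prefix_P 3 (by norm_num)) n
      (by omega)
  · exact points_of_bad (bad_even 3) n (by omega)
  · exact points_of_bad (exists_bad hB prefix_st p0_le p0_flip p0_pos prefix_P 4 (by norm_num)) n
      (by omega)
  · exact points_of_bad (exists_two_sided_zero Pool.Agent.H43.Nu2.exists_glue P11.q_st P11.q_flip
      P11.q_pos P11.q_P) n (by omega)
  · obtain ⟨B, i, hi, hdi⟩ : ∃ B i, i < 5 ∧ d = 10 + 5 * B + i :=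
      ⟨(d - 10) / 5, (d - 10) % 5, by omega, by omega⟩
    have h := bad_two B i hi
    have e : 11 + 5 * B + i = d + 1 := by omega
    rw [e] at h
    exact points_of_bad h n (by omega)

end Pool.Agent.H77.Nu.BlkT
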