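import Pool.Agent.H77.Nu.BlkT.Check

/-!
A block of 8 columns with geometric far rows (MP_1e71f9_co): from the checked data to the step of
the chain.
-/

set_option autoImplicit false

namespace Pool.Agent.H77.Nu.BlkT

open Finset Pool.Agent.H67.Nu Pool.Agent.H77.Nu

/-- The code of the signs of the block. -/
def code (t : ℕ → Bool) : ℕ := ∑ j ∈ range 8, if t j then 2 ^ j else 0

theorem code_bits (b : Fin 8 → Bool) :
    let k := ∑ j : Fin 8, if b j then 2 ^ (j : ℕ) else 0
    k < 256 ∧ ∀ j : Fin 8, k.testBit j = b j := by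
  revert b
  decide +kernel

theorem code_spec (s : ℕ → Bool) : code s < 256 ∧ ∀ j < 8, (code s).testBit j = s j := by
  have h := code_bits (fun j => s j)
  have e : code s = ∑ j : Fin 8, if s j then 2 ^ (j : ℕ) else 0 := by
    unfold code
    rw [Finset.sum_range]
  simp only at h
  rw [← e] at h
  exact ⟨h.1, fun j hj => h.2 ⟨j, hj⟩⟩

theorem bits_inj {a b : ℕ} (ha : a < 256) (hb : b < 256)
    (h : ∀ j < 8, a.testBit j = b.testBit j) : a = b := by
  apply Nat.eq_of_testBit_eq
  intro j
  by_cases hj : j < 8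
  · exact h j hj
  · have h7 : ∀ m, m < 256 → m.testBit j = false := fun m hm =>
      Nat.testBit_lt_two_pow (lt_of_lt_of_le hm (by
        calc 256 = 2 ^ 8 := by norm_num
          _ ≤ 2 ^ j := Nat.pow_le_pow_right (by norm_num) (by omega)))
    rw [h7 _ ha, h7 _ hb]

theorem compl_bits : ∀ c < 256, ∀ j < 8, (255 - c).testBit j = !(c.testBit j) := by
  decide +kernel

theorem xor_bits : ∀ k < 256, ∀ i < 8, (k ^^^ 2 ^ i) < 256 ∧
    ∀ j < 8, (k ^^^ 2 ^ i).testBit j = if j = i then !(k.testBit j) else k.testBit j := by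
  decide +kernel

theorem compl_xor : ∀ c < 256, ∀ i < 8,
    255 - (c ^^^ 2 ^ i) = (255 - c) ^^^ 2 ^ i := by
  decide +kernel

theorem code_flip (s : ℕ → Bool) {i : ℕ} (hi : i < 8) :
    code (flip s i) = code s ^^^ 2 ^ i := by
  obtain ⟨h1, h2⟩ := code_spec s
  obtain ⟨h3, h4⟩ := code_spec (flip s i)
  obtain ⟨h5, h6⟩ := xor_bits _ h1 i hi
  refine bits_inj h3 h5 fun j hj => ?_
  rw [h4 j hj, h6 j hj]
  by_cases hji : j = i
  · subst hji
    rw [flip_apply_self, if_pos rfl, h2 j hj]
  · rw [flip_apply_ne hji, if_neg hji, h2 j hj]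

/-- The block as a real matrix with rows indexed by relative levels. -/
noncomputable def Bz (j : ℕ) (l : ℤ) : ℝ :=
  if l < (-4 : ℤ) then (cL.getD j 0 : ℝ) * (sL.getD j 0 : ℝ) ^ ((-4 : ℤ) - 1 - l).toNat
  else if l < (6 : ℤ) then ((bz j (l - (-12 : ℤ)).toNat : ℤ) : ℝ)
  else (if (j + 1) % 2 = 1 then -1 else 1) *
    ((dL.getD j 0 : ℝ) * (uL.getD j 0 : ℝ) ^ (l - (6 : ℤ)).toNat)

theorem Bz_tab {j r : ℕ} (hj : j < 8) (hr : r < 26) : Bz j ((-12 : ℤ) + r) = ((bz j r : ℤ) : ℝ) := by
  unfold Bz
  rcases Nat.lt_or_ge r 8 with h1 | h1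
  · rw [if_pos (by omega), low_check r h1 j hj]
    have e : ((-4 : ℤ) - 1 - ((-12 : ℤ) + (r : ℤ))).toNat = 8 - 1 - r := by omega
    rw [e]
    push_cast
    rfl
  · rcases Nat.lt_or_ge r 18 with h2 | h2
    · rw [if_neg (by omega), if_pos (by omega)]
      congr 2
      omega
    · rw [if_neg (by omega), if_neg (by omega)]
      obtain ⟨i, rfl⟩ : ∃ i, r = 18 + i := ⟨r - 18, by omega⟩
      have e : ((-12 : ℤ) + ((18 + i : ℕ) : ℤ) - (6 : ℤ)).toNat = i := by omega
      rw [high_check i (by omega) j hj, e]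
      split_ifs <;> push_cast <;> ring

/-- A window in the low rows. -/
theorem win_lowB {P : ℤ} (hP : P < (-12 : ℤ)) (b : Bool) (t : ℕ → Bool) :
    Win (fun j i => Bz j (P + i)) 8 0 b t (ch (tl b t) 8 + 1) (tl b t 8) := by
  have hc := ch_le (tl b t) 8
  refine win_low b t (fun j => (cL.getD j 0 : ℝ) * (sL.getD j 0 : ℝ) ^ ((-4 : ℤ) - 1 - P).toNat)
    (fun j => ((sL.getD j 0 : ℕ) : ℝ)⁻¹) ?_ ?_ ?_ ?_
  · intro j hj
    have h1 := (lists_pos j hj).1
    have h2 := (lists_pos j hj).2.1
    positivity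
  · intro j hj
    have h2 := (lists_pos j hj).2.1
    positivity
  · intro a c hac hcm
    have h1 := (lists_mono c hcm a hac).1
    have h2 := (lists_pos c hcm).2.1
    have h3 : (0 : ℝ) < ((sL.getD c 0 : ℕ) : ℝ) := by exact_mod_cast h2
    have h4 : ((sL.getD c 0 : ℕ) : ℝ) < ((sL.getD a 0 : ℕ) : ℝ) := by exact_mod_cast h1
    exact inv_strictAnti₀ h3 h4
  · intro j hj i hi
    have h2 := (lists_pos j hj).2.1
    have h3 : ((sL.getD j 0 : ℕ) : ℝ) ≠ 0 := by positivity
    show Bz j (P + i) = _
    unfold Bz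
    rw [if_pos (by omega)]
    have e : ((-4 : ℤ) - 1 - P).toNat = ((-4 : ℤ) - 1 - (P + (i : ℤ))).toNat + i := by omega
    rw [e, pow_add, inv_pow]
    field_simp

/-- A window in the high rows. -/
theorem win_highB {P : ℤ} (hP : (6 : ℤ) ≤ P) (b : Bool) (t : ℕ → Bool) :
    Win (fun j i => Bz j (P + i)) 8 0 b t (ch (th b t) 8 + 1) (th b t 8) := by
  refine win_high b t (fun j => (dL.getD j 0 : ℝ) * (uL.getD j 0 : ℝ) ^ (P - (6 : ℤ)).toNat)
    (fun j => ((uL.getD j 0 : ℕ) : ℝ)) ?_ ?_ ?_ ?_
  · intro j hj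
    have h1 := (lists_pos j hj).2.2.1
    have h2 := (lists_pos j hj).2.2.2
    positivity
  · intro j hj
    have h2 := (lists_pos j hj).2.2.2
    positivity
  · intro a c hac hcm
    have h1 := (lists_mono c hcm a hac).2
    exact_mod_cast h1
  · intro j hj i hi
    show Bz j (P + i) = _
    unfold Bz
    rw [if_neg (by omega), if_neg (by omega)]
    have e : (P + (i : ℤ) - (6 : ℤ)).toNat = (P - (6 : ℤ)).toNat + i := by omega
    rw [e, pow_add]
    ring

theorem bRows_len (r : ℕ) : (bRows r).length = 9 := by simp [bRows]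

theorem bRows_getD (r : ℕ) {i : ℕ} (hi : i < 9) : (bRows r).getD i [] = bT.getD (r + i) [] := by
  simp [bRows, List.getD_eq_getElem?_getD, hi]

theorem win_row {r : ℕ} (hr : r < 18) (t : ℕ → Bool) {c : ℕ} (hc : c < 256)
    (ht : ∀ j < 8, c.testBit j = t j) :
    1 ≤ wk (bTab.getD r 0) c ∧ wk (bTab.getD r 0) c ≤ 9 ∧
      Win (fun j i => ((bz j (r + i) : ℤ) : ℝ)) 8 0 true t (wk (bTab.getD r 0) c)
        (ws (bTab.getD r 0) c) := by
  obtain ⟨hl, hk⟩ := chk_all r hr
  have h := chkL_spec hk c (by rw [hl]; exact hc)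
  rw [zero_add] at h
  rcases h with ⟨h1, h2⟩ | ⟨h1, h2⟩
  · rw [h1, h2]
    exact ⟨le_refl _, by norm_num, win_one _ _ _ _ _⟩
  · obtain ⟨-, -, h3, h4⟩ := chkW_spec h2
    rw [ext_length, bRows_len] at h4
    refine ⟨h3, h4, win_of_chk (L := bRows r) ?_ ?_ ht h1 h2 ?_⟩
    · intro i hi
      rw [bRows_len] at hi
      rw [bRows_getD r hi]
      exact bT_len _ (by omega)
    · intro i hi j _
      rw [bRows_len] at hi
      rw [bRows_getD r hi]
      rfl
    · refine span_of_inv (G := fun a j => ((((bInv.getD r []).getD a []).getD j 0 : ℤ) : ℝ))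
        (D := ((bDet.getD r 0 : ℤ) : ℝ)) (by exact_mod_cast bDet_ne r hr) h4 ?_
      intro a ha i hi
      have := congrArg (Int.cast : ℤ → ℝ) (inv_check r hr a ha i hi)
      push_cast at this
      simpa using this

/-- The windows of the table. -/
theorem win_tab (r : ℕ) (t : ℕ → Bool) {c : ℕ} (hc : c < 256)
    (ht : ∀ j < 8, c.testBit j = t j) :
    1 ≤ wk (tb r) c ∧ wk (tb r) c ≤ 9 ∧
      Win (fun j i => Bz j ((-12 : ℤ) + r + i)) 8 0 true t (wk (tb r) c) (ws (tb r) c) := by
  by_cases hr : r < 18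
  · have e : tb r = bTab.getD r 0 := by unfold tb; rw [if_pos hr]
    obtain ⟨h1, h2, h3⟩ := win_row hr t hc ht
    rw [e]
    refine ⟨h1, h2, win_rows h3 fun j hj i hi => ?_⟩
    have e2 : (-12 : ℤ) + (r : ℤ) + ((0 + i : ℕ) : ℤ) = (-12 : ℤ) + ((r + (0 + i) : ℕ) : ℤ) := by
      push_cast; ring
    show Bz j ((-12 : ℤ) + (r : ℤ) + ((0 + i : ℕ) : ℤ)) = _
    rw [e2, Bz_tab hj (by omega)]
  · have e : tb r = bHigh := by unfold tb; rw [if_neg hr]
    obtain ⟨h1, h2⟩ := high_tab c hc
    rw [e, h1, h2]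
    have h3 := ch_le (th true fun j => c.testBit j) 8
    refine ⟨by omega, by omega, ?_⟩
    exact win_congr (fun j hj => (ht j hj).symm) (win_highB (by omega) true fun j => c.testBit j)

/-- The signs of the column after the block. -/
def gz (l : ℤ) : Bool := gN (l - (-12 : ℤ)).toNat

/-- The code of the signs relative to the sign before. -/
def cb (b : Bool) (t : ℕ → Bool) : ℕ := if b then code t else 255 - code t

theorem cb_lt (b : Bool) (t : ℕ → Bool) : cb b t < 256 := by
  unfold cb
  have := (code_spec t).1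
  split_ifs <;> omega

theorem cb_flip (b : Bool) (t : ℕ → Bool) {i : ℕ} (hi : i < 8) :
    cb b (flip t i) = cb b t ^^^ 2 ^ i := by
  unfold cb
  split_ifs with h
  · exact code_flip t hi
  · rw [code_flip t hi]
    exact compl_xor _ (code_spec t).1 i hi

theorem cb_bits (b : Bool) (t : ℕ → Bool) : ∀ j < 8, (cb b t).testBit j = (t j == b) := by
  intro j hj
  obtain ⟨h1, h2⟩ := code_spec t
  unfold cb
  cases b
  · rw [if_neg (by decide), compl_bits _ h1 j hj, h2 j hj]
    cases t j <;> rfl
  · rw [if_pos rfl, h2 j hj]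
    cases t j <;> rfl

theorem reachT {P : ℤ} {r : ℕ} (hP : P = (-12 : ℤ) + r) (b : Bool) (t : ℕ → Bool) (y : Bool) {A : ℤ}
    (hA : A ≤ (-12 : ℤ) + nT r (cb b t) (y == b)) : Reach 8 9 Bz gz P b t y A := by
  obtain ⟨h1, h2, h3⟩ := win_tab r (fun j => t j == b) (cb_lt b t) (cb_bits b t)
  have hg : gz (P + ((wk (tb r) (cb b t) : ℕ) : ℤ) - 1) = gN (r + wk (tb r) (cb b t) - 1) := by
    unfold gz
    congr 1
    omega
  unfold nT at hA
  cases b
  · refine ⟨wk (tb r) (cb false t), !ws (tb r) (cb false t), h1, h2, ?_, ?_⟩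
    · have h4 : Win (fun j i => Bz j (P + i)) 8 0 true (fun j => !t j)
          (wk (tb r) (cb false t)) (ws (tb r) (cb false t)) := by
        refine win_congr (t := fun j => t j == false) (fun j _ => ?_) (win_rows h3 fun j _ i _ => ?_)
        · cases t j <;> rfl
        · subst hP; rfl
      exact win_neg h4
    · rw [hg]
      revert hA
      cases y <;> cases gN (r + wk (tb r) (cb false t) - 1) <;>
        cases ws (tb r) (cb false t) <;> simp <;> omega
  · refine ⟨wk (tb r) (cb true t), ws (tb r) (cb true t), h1, h2, ?_, ?_⟩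
    · refine win_congr (t := fun j => t j == true) (fun j _ => ?_) (win_rows h3 fun j _ i _ => ?_)
      · cases t j <;> rfl
      · subst hP; rfl
    · rw [hg]
      revert hA
      cases y <;> cases gN (r + wk (tb r) (cb true t) - 1) <;>
        cases ws (tb r) (cb true t) <;> simp <;> omega

theorem reach_low {P : ℤ} (hP : P < (-12 : ℤ)) (b : Bool) (t : ℕ → Bool) (y : Bool) {A : ℤ}
    (hA : A ≤ P + ch (tl b t) 8 + if y = tl b t 8 then 0 else 1) :
    Reach 8 9 Bz gz P b t y A := by
  have hc := ch_le (tl b t) 8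
  refine ⟨ch (tl b t) 8 + 1, tl b t 8, by omega, by omega, win_lowB hP b t, ?_⟩
  have hg : gz (P + ((ch (tl b t) 8 + 1 : ℕ) : ℤ) - 1) = true := by
    unfold gz
    obtain ⟨i, hi⟩ : ∃ i, (P + ((ch (tl b t) 8 + 1 : ℕ) : ℤ) - 1 - (-12 : ℤ)).toNat = i := ⟨_, rfl⟩
    have e : i < 8 := by omega
    rw [hi]
    unfold gN
    simp [e]
  rw [hg]
  revert hA
  cases y <;> cases tl b t 8 <;> simp <;> omega

theorem reach_high {P : ℤ} (hP : (6 : ℤ) ≤ P) (b : Bool) (t : ℕ → Bool) (y : Bool) {A : ℤ}
    (hA : A ≤ P + ch (th b t) 8 + if y = tl b t 8 then 1 else 0) :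
    Reach 8 9 Bz gz P b t y A := by
  have hc := ch_le (th b t) 8
  refine ⟨ch (th b t) 8 + 1, th b t 8, by omega, by omega, win_highB hP b t, ?_⟩
  have hg : gz (P + ((ch (th b t) 8 + 1 : ℕ) : ℤ) - 1) = false := by
    unfold gz
    obtain ⟨i, hi⟩ : ∃ i, (P + ((ch (th b t) 8 + 1 : ℕ) : ℤ) - 1 - (-12 : ℤ)).toNat = i := ⟨_, rfl⟩
    have e : 18 ≤ i := by omega
    have e2 : ¬ i < 18 := by omega
    have e3 : ¬ i < 8 := by omega
    rw [hi]
    unfold gN
    simp [e, e2, e3]
  have ht : th b t 8 = xor (tl b t 8) false := rfl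
  rw [hg, ht]
  revert hA
  cases y <;> cases tl b t 8 <;> simp <;> omega

theorem bestJ_spec (r c : ℕ) (y : Bool) (n : ℕ) :
    bestJ r c y n = 0 ∨ ∃ j < n, bestJ r c y n = nT r (c ^^^ 2 ^ j) y := by
  induction n with
  | zero => exact Or.inl rfl
  | succ n ih =>
    rcases le_total (bestJ r c y n) (nT r (c ^^^ 2 ^ n) y) with h | h
    · right
      exact ⟨n, by omega, by rw [bestJ, max_eq_left h]⟩
    · rcases ih with h1 | ⟨j, hj, h1⟩
      · left
        rw [bestJ, max_eq_right h, h1]
      · right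
        exact ⟨j, by omega, by rw [bestJ, max_eq_right h, h1]⟩

theorem okY_spec {p q t : ℕ} (h : okY p q t = true) :
    S0 (0) (min ((-12 : ℤ) + p - 4) 1) ((-12 : ℤ) + q - 4) ((-12 : ℤ) + t - 4) := by
  unfold okY at h
  simp only [Bool.or_eq_true, Bool.and_eq_true, decide_eq_true_eq] at h
  unfold S0 F
  omega

theorem nT_ge (r : ℕ) {c : ℕ} (hc : c < 256) (y : Bool) : r ≤ nT r c y := by
  have := (win_tab r (fun j => c.testBit j) hc fun _ _ => rfl).1
  unfold nT
  split_ifs <;> omega

/-- One near profile. -/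
theorem near {P Q T : ℤ} {r q : ℕ} {same : Bool} (hP : P = (-12 : ℤ) + r)
    (hQ : if same then Q = (-12 : ℤ) + q else T = (-12 : ℤ) + q) (hq : 1 ≤ (-12 : ℤ) + (q : ℤ))
    (hg : ∀ y, allN 256 (chkG r q same y) = true) (b : Bool) (t : ℕ → Bool) (y : Bool) :
    ∃ P' Q' T', S0 (0) P' Q' T' ∧
      Reach 8 9 Bz gz P b t y (P' + 4) ∧
      ((1 ≤ Q ∧ Reach 8 9 Bz gz Q b t y (Q' + 4)) ∨
        (1 ≤ T ∧ Reach 8 9 Bz gz T (!b) t y (Q' + 4)) ∨
        ∃ j < 8, Reach 8 9 Bz gz P b (flip t j) y (Q' + 4)) ∧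
      Reach 8 9 Bz gz P b t (!y) (T' + 4) ∧ (P ≤ P' + 4 ∨ 0 ≤ P') := by
  have h := allN_spec (hg (y == b)) _ (cb_lt b t)
  unfold chkG at h
  refine ⟨_, _, _, okY_spec h, ?_, ?_, ?_, ?_⟩
  · refine reachT hP b t y ?_
    omega
  · have hbest : ∀ v : ℕ, v = bestJ r (cb b t) (y == b) 8 → v = 0 ∨
        ∃ j < 8, Reach 8 9 Bz gz P b (flip t j) y ((-12 : ℤ) + v) := by
      intro v hv
      rcases bestJ_spec r (cb b t) (y == b) 8 with h1 | ⟨j, hj, h1⟩
      · left; rw [hv, h1]
      · right
        refine ⟨j, hj, reachT hP b _ y ?_⟩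
        rw [cb_flip b t hj, hv, h1]
    have hb := hbest _ rfl
    cases same
    · simp only [Bool.false_eq_true, if_false] at hQ ⊢
      have e1 : cb (!b) t = 255 - cb b t := by
        have := (code_spec t).1
        unfold cb
        cases b <;> simp <;> omega
      have e2 : (y == !b) = !(y == b) := by cases y <;> cases b <;> rfl
      have hT : Reach 8 9 Bz gz T (!b) t y ((-12 : ℤ) + nF q (cb b t) (y == b)) := by
        refine reachT hQ (!b) t y ?_
        unfold nF
        rw [e1, e2]
      rcases le_total (nF q (cb b t) (y == b)) (bestJ r (cb b t) (y == b) 8) with h2 | h2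
      · rw [max_eq_right h2]
        rcases hb with h3 | ⟨j, hj, h3⟩
        · right; left
          have : nF q (cb b t) (y == b) = 0 := by omega
          rw [this] at hT
          refine ⟨by omega, ?_⟩
          rw [h3]
          simpa using hT
        · right; right
          refine ⟨j, hj, ?_⟩
          simpa using h3
      · rw [max_eq_left h2]
        right; left
        refine ⟨by omega, ?_⟩
        simpa using hT
    · simp only [if_true] at hQ ⊢
      have hT : Reach 8 9 Bz gz Q b t y ((-12 : ℤ) + nT q (cb b t) (y == b)) :=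
        reachT hQ b t y (le_refl _)
      rcases le_total (nT q (cb b t) (y == b)) (bestJ r (cb b t) (y == b) 8) with h2 | h2
      · rw [max_eq_right h2]
        rcases hb with h3 | ⟨j, hj, h3⟩
        · left
          have : nT q (cb b t) (y == b) = 0 := by omega
          rw [this] at hT
          refine ⟨by omega, ?_⟩
          rw [h3]
          simpa using hT
        · right; right
          refine ⟨j, hj, ?_⟩
          simpa using h3
      · rw [max_eq_left h2]
        left
        refine ⟨by omega, ?_⟩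
        simpa using hT
  · refine reachT hP b t (!y) ?_
    have e : ((!y) == b) = !(y == b) := by cases y <;> cases b <;> rfl
    rw [e]
    omega
  · have := nT_ge r (cb_lt b t) (y == b)
    omega

/-- The generators of the set `XS`. -/
def XG (P Q T : ℤ) : Prop :=
  (P = 0 ∧ Q = 1) ∨ (P = 0 ∧ T = 1) ∨ (P ≤ -1 ∧ Q = min ((3 * -P + 1) / 2) (1 - P))

theorem exG {N : ℕ} {R : ℤ} (h : ExL N R (XS (1))) : ExL N R XG := by
  obtain ⟨x, e, h⟩ := h
  refine ⟨x, e, ?_⟩
  have h1 := h.mono 0 (X' := fun P Q T => XG P Q T ∧ 1 ≤ P + R) fun P Q T hX => ?_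
  · rw [add_zero] at h1
    exact h1
  · obtain ⟨hX, hR⟩ := hX
    unfold XS at hX
    by_cases h1 : P = 0 ∧ 1 ≤ Q
    · exact ⟨0, 1, T, ⟨by unfold XG; omega, by omega⟩, by omega, by omega, by omega⟩
    by_cases h2 : P = 0 ∧ 1 ≤ T
    · exact ⟨0, Q, 1, ⟨by unfold XG; omega, by omega⟩, by omega, by omega, by omega⟩
    · exact ⟨P, min ((3 * -P + 1) / 2) (1 - P), T, ⟨by unfold XG; omega, by omega⟩,
        by omega, by omega, by omega⟩

theorem blk_check : Check2 8 9 Bz gz 4 XG (S0 (0)) := by
  intro P Q T hX b t y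
  rcases hX with ⟨h1, h2⟩ | ⟨h1, h2⟩ | ⟨h1, h2⟩
  · exact near (r := 12) (q := 13) (same := true) (by omega) (by simp only [if_true]; omega)
      (by norm_num) (by intro y; cases y; exacts [g0f, g0t]) b t y
  · exact near (r := 12) (q := 13) (same := false) (by omega)
      (by simp only [Bool.false_eq_true, if_false]; omega)
      (by norm_num) (by intro y; cases y; exacts [g1f, g1t]) b t y
  · by_cases h3 : P < (-12 : ℤ)
    · have hadd := ch_add b t 8
      have hc := ch_le (tl b t) 8
      have hQ0 : (6 : ℤ) ≤ Q := by omega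
      have hQ1 : 1 ≤ Q := by omega
      refine ⟨P + ch (tl b t) 8 + (if y = tl b t 8 then 0 else 1) - 4,
        Q + ch (th b t) 8 + (if y = tl b t 8 then 1 else 0) - 4, P - 4, ?_,
        reach_low h3 b t y (by omega), Or.inl ⟨hQ1, reach_high hQ0 b t y (by omega)⟩, ?_, ?_⟩
      · unfold S0 F
        split_ifs <;> omega
      · have h4 : P - 4 + 4 = P := by ring
        rw [h4]
        exact Reach.self _ _ (by norm_num) _ _ _ _ _ _
      · left
        split_ifs <;> omega
    · have hcase : P = -1 ∨ P = -2 ∨ P = -3 ∨ P = -4 ∨ P = -5 ∨ P = -6 ∨ P = -7 ∨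
        P = -8 ∨ P = -9 ∨ P = -10 ∨ P = -11 ∨ P = -12 := by
        omega
      rcases hcase with rfl | rfl | rfl | rfl | rfl | rfl | rfl | rfl | rfl | rfl | rfl | rfl
      · exact near (r := 11) (q := 14) (same := true) (by omega)
          (by simp only [if_true]; omega) (by norm_num)
          (by intro y; cases y; exacts [g2f, g2t]) b t y
      · exact near (r := 10) (q := 15) (same := true) (by omega)
          (by simp only [if_true]; omega) (by norm_num)
          (by intro y; cases y; exacts [g3f, g3t]) b t y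
      · exact near (r := 9) (q := 16) (same := true) (by omega)
          (by simp only [if_true]; omega) (by norm_num)
          (by intro y; cases y; exacts [g4f, g4t]) b t y
      · exact near (r := 8) (q := 17) (same := true) (by omega)
          (by simp only [if_true]; omega) (by norm_num)
          (by intro y; cases y; exacts [g5f, g5t]) b t y
      · exact near (r := 7) (q := 18) (same := true) (by omega)
          (by simp only [if_true]; omega) (by norm_num)
          (by intro y; cases y; exacts [g6f, g6t]) b t y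
      · exact near (r := 6) (q := 19) (same := true) (by omega)
          (by simp only [if_true]; omega) (by norm_num)
          (by intro y; cases y; exacts [g7f, g7t]) b t y
      · exact near (r := 5) (q := 20) (same := true) (by omega)
          (by simp only [if_true]; omega) (by norm_num)
          (by intro y; cases y; exacts [g8f, g8t]) b t y
      · exact near (r := 4) (q := 21) (same := true) (by omega)
          (by simp only [if_true]; omega) (by norm_num)
          (by intro y; cases y; exacts [g9f, g9t]) b t y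
      · exact near (r := 3) (q := 22) (same := true) (by omega)
          (by simp only [if_true]; omega) (by norm_num)
          (by intro y; cases y; exacts [g10f, g10t]) b t y
      · exact near (r := 2) (q := 23) (same := true) (by omega)
          (by simp only [if_true]; omega) (by norm_num)
          (by intro y; cases y; exacts [g11f, g11t]) b t y
      · exact near (r := 1) (q := 24) (same := true) (by omega)
          (by simp only [if_true]; omega) (by norm_num)
          (by intro y; cases y; exacts [g12f, g12t]) b t y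
      · exact near (r := 0) (q := 25) (same := true) (by omega)
          (by simp only [if_true]; omega) (by norm_num)
          (by intro y; cases y; exacts [g13f, g13t]) b t y

/-- The block sends the set `XS` into the set `S0`. -/
theorem block_ok : BlockOK2 9 4 (1) (0) := by
  intro N R hR h
  exact block_ex2 (m := 8) (K := 9) hR (by norm_num) blk_check (exG h)

/-- A prefix, `t` blocks and a tail. -/
theorem bad (v t u r : ℕ) (hr : r ≤ 4 + 2 * v + 5 * t + 2 * u) :
    Bad (9 + 5 * v + 12 * t + 5 * u) r := by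
  have := bad_chain2 v block_ok (by norm_num) (by norm_num) 0 (by norm_num) t u r
    (by push_cast; omega)
  have e : 9 + 5 * v + (9 + 5 * 0 + 3) * t + 5 * u = 9 + 5 * v + 12 * t + 5 * u := by ring
  rwa [e] at this

end Pool.Agent.H77.Nu.BlkT
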